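import Mathlib
import Pool.Agent.W58.DS.Stm

set_option autoImplicit false

namespace Pool.Agent.W7.DS.Real

open Pool.Agent.W58.DS
open MeasureTheory Set Filter Topology

/-- the zigzag argument -/
theorem unb (p : ℝ) (hp : 1 < p) (R : ℝ → ℝ → ℝ → Prop) (V : ℝ → ℝ → ℝ) (κ : ℝ) (hκ : 0 < κ)
    (hV : ∀ x y, R x y (V x y)) (hk1 : V (-1 / p) (1 - 1 / p) = κ)
    (hk2 : ∀ s, 0 < s → V (s / p) (s * (p - 1) / p) = s ^ p * κ)
    (hsc : ∀ x y L s, 0 < s → R x y L → R (s * x) (s * y) (s ^ p * L))
    (hst : ∀ x1 y1 L x0 y0 lam η : ℝ, R x1 y1 L → |y1 - y0| = |x1 - x0| → 0 < lam → lam < 1 →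
      0 < η → R (lam * x1 + (1 - lam) * x0) (lam * y1 + (1 - lam) * y0)
      (lam * L + (1 - lam) * V x0 y0 - η)) : ¬ BddAbove {b | R 0 1 b} := by
  intro hbdd
  have hp0 : 0 < p := by linarith
  set b := sSup {b | R 0 1 b} with hb
  have hne : {b | R 0 1 b}.Nonempty := ⟨V 0 1, hV 0 1⟩
  -- the inequality for small d
  have key : ∀ d : ℝ, 0 < d → p * d < 1 →
      2 * p * κ * d ≤ b * ((1 + p * d) - (1 + 2 * d) ^ p + p * d * (1 + 2 * d) ^ (p - 1)) := by
    intro d hd hpd
    set s : ℝ := 1 + 2 * d with hs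
    have hs1 : 1 < s := by rw [hs]; linarith
    have hs0 : 0 < s := by linarith
    have hpd0 : 0 < p * d := mul_pos hp0 hd
    set lam : ℝ := 1 - p * d / s with hlam
    have hq : p * d / s < 1 := by
      rw [div_lt_one hs0]; linarith
    have hq0 : 0 < p * d / s := div_pos hpd0 hs0
    have hl0 : 0 < lam := by rw [hlam]; linarith
    have hl1 : lam < 1 := by rw [hlam]; linarith
    set l2 : ℝ := 1 / (1 + p * d) with hl2
    have hl20 : 0 < l2 := by rw [hl2]; positivity
    have hl21 : l2 < 1 := by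
      rw [hl2, div_lt_one (by linarith)]; linarith
    have hsp : 0 < s ^ p := Real.rpow_pos_of_pos hs0 p
    have step : ∀ b' ∈ {b | R 0 1 b}, ∀ η : ℝ, 0 < η →
        l2 * (lam * (s ^ p * b') + (1 - lam) * (s ^ p * κ) - η) + (1 - l2) * κ - η ≤ b := by
      intro b' hb' η hη
      have h1 : R (s * 0) (s * 1) (s ^ p * b') := hsc 0 1 b' s hs0 hb'
      rw [mul_zero, mul_one] at h1
      have h2 := hst 0 s (s ^ p * b') (s / p) (s * (p - 1) / p) lam η h1 (by
        have e1 : s - s * (p - 1) / p = s / p := by field_simp; ring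
        rw [e1, zero_sub, abs_neg]) hl0 hl1 hη
      have e2 : lam * 0 + (1 - lam) * (s / p) = d := by
        rw [hlam]; field_simp; ring
      have e3 : lam * s + (1 - lam) * (s * (p - 1) / p) = 1 + d := by
        have : lam * s + (1 - lam) * (s * (p - 1) / p) = s - d := by
          rw [hlam]; field_simp; ring
        rw [this, hs]; ring
      rw [e2, e3, hk2 s hs0] at h2
      have h3 := hst d (1 + d) _ (-1 / p) (1 - 1 / p) l2 η h2 (by
        congr 1; ring) hl20 hl21 hη
      have e4 : l2 * d + (1 - l2) * (-1 / p) = 0 := by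
        rw [hl2]; field_simp; ring
      have e5 : l2 * (1 + d) + (1 - l2) * (1 - 1 / p) = 1 := by
        rw [hl2]; field_simp; ring
      rw [e4, e5, hk1] at h3
      exact le_csSup hbdd h3
    have step2 : ∀ b' ∈ {b | R 0 1 b},
        l2 * (lam * (s ^ p * b') + (1 - lam) * (s ^ p * κ)) + (1 - l2) * κ ≤ b := by
      intro b' hb'
      apply le_of_forall_pos_le_add
      intro ε hε
      have := step b' hb' (ε / 2) (by linarith)
      nlinarith
    have hpos : 0 < l2 * lam * s ^ p := by positivity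
    have step3 : b ≤ (b - l2 * (1 - lam) * (s ^ p * κ) - (1 - l2) * κ) / (l2 * lam * s ^ p) := by
      apply csSup_le hne
      intro b' hb'
      rw [le_div_iff₀ hpos]
      have := step2 b' hb'
      nlinarith
    rw [le_div_iff₀ hpos] at step3
    -- multiply by `1 + p d`
    have h1 : (1 + p * d) * l2 = 1 := by rw [hl2]; field_simp
    have h2 : (1 + p * d) * (1 - l2) = p * d := by linarith
    have h3 : lam * s ^ p = s ^ p - p * d * s ^ (p - 1) := by
      rw [hlam, Real.rpow_sub_one hs0.ne']; field_simp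
    have h4 : (1 - lam) * s ^ p = p * d * s ^ (p - 1) := by linarith
    have h5 : (1 + p * d) * (b * (l2 * lam * s ^ p)) ≤
        (1 + p * d) * (b - l2 * (1 - lam) * (s ^ p * κ) - (1 - l2) * κ) :=
      mul_le_mul_of_nonneg_left step3 (by linarith)
    have h6 : (1 + p * d) * (b * (l2 * lam * s ^ p)) = b * (s ^ p - p * d * s ^ (p - 1)) := by
      rw [← h3]
      calc (1 + p * d) * (b * (l2 * lam * s ^ p)) = ((1 + p * d) * l2) * (b * (lam * s ^ p)) := by
            ring
        _ = _ := by rw [h1, one_mul]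
    have h7 : (1 + p * d) * (b - l2 * (1 - lam) * (s ^ p * κ) - (1 - l2) * κ) =
        (1 + p * d) * b - p * d * s ^ (p - 1) * κ - p * d * κ := by
      have : (1 + p * d) * (b - l2 * (1 - lam) * (s ^ p * κ) - (1 - l2) * κ) =
        (1 + p * d) * b - ((1 + p * d) * l2) * (((1 - lam) * s ^ p) * κ) -
          ((1 + p * d) * (1 - l2)) * κ := by ring
      rw [this, h1, h2, h4]; ring
    rw [h6, h7] at h5
    have h8 : (1 : ℝ) ≤ s ^ (p - 1) := Real.one_le_rpow hs1.le (by linarith)
    have h9 : p * d * κ ≤ p * d * s ^ (p - 1) * κ := by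
      have : 0 ≤ p * d * κ := by positivity
      nlinarith
    nlinarith
  -- the derivative at 0
  have hder : HasDerivAt (fun d : ℝ => (1 + p * d) - (1 + 2 * d) ^ p +
      p * d * (1 + 2 * d) ^ (p - 1)) 0 0 := by
    have e0 : HasDerivAt (fun d : ℝ => 1 + 2 * d) 2 0 := by
      simpa using ((hasDerivAt_id (0 : ℝ)).const_mul 2).const_add 1
    have e1 : HasDerivAt (fun d : ℝ => (1 + 2 * d) ^ p) (2 * p * (1 + 2 * 0) ^ (p - 1)) 0 :=
      e0.rpow_const (Or.inl (by norm_num))
    have e2 : HasDerivAt (fun d : ℝ => (1 + 2 * d) ^ (p - 1))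
        (2 * (p - 1) * (1 + 2 * 0) ^ (p - 1 - 1)) 0 :=
      e0.rpow_const (Or.inl (by norm_num))
    have e3 : HasDerivAt (fun d : ℝ => 1 + p * d) p 0 := by
      simpa using ((hasDerivAt_id (0 : ℝ)).const_mul p).const_add 1
    have e4 : HasDerivAt (fun d : ℝ => p * d) p 0 := by
      simpa using ((hasDerivAt_id (0 : ℝ)).const_mul p)
    have e5 := (e3.sub e1).add (e4.mul e2)
    refine e5.congr_deriv ?_
    norm_num
    ring
  set φ : ℝ → ℝ := fun d => (1 + p * d) - (1 + 2 * d) ^ p + p * d * (1 + 2 * d) ^ (p - 1) with hφ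
  have hφ0 : φ 0 = 0 := by simp [hφ]
  have hlo := hder.isLittleO
  have hε : 0 < p * κ / (|b| + 1) := by positivity
  have h1 := hlo.def hε
  have h2 : ∀ᶠ d : ℝ in 𝓝 0, |φ d| ≤ p * κ / (|b| + 1) * |d| := by
    filter_upwards [h1] with d hd
    simpa [hφ0] using hd
  have h3 : ∀ᶠ d : ℝ in 𝓝[>] 0, |φ d| ≤ p * κ / (|b| + 1) * |d| :=
    h2.filter_mono nhdsWithin_le_nhds
  have h4 : ∀ᶠ d : ℝ in 𝓝[>] 0, d < 1 / p :=
    (gt_mem_nhds (by positivity)).filter_mono nhdsWithin_le_nhds
  obtain ⟨d, ⟨h5, h6⟩, h7⟩ := ((h3.and h4).and self_mem_nhdsWithin).exists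
  have hd : 0 < d := h7
  have h8 : p * d < 1 := by
    rw [lt_div_iff₀ hp0] at h6; linarith
  have h9 := key d hd h8
  have h10 : b * φ d ≤ |b| * |φ d| := by
    rw [← abs_mul]; exact le_abs_self _
  rw [abs_of_pos hd] at h5
  have h11 : |b| * |φ d| ≤ |b| * (p * κ / (|b| + 1) * d) :=
    mul_le_mul_of_nonneg_left h5 (abs_nonneg b)
  have h12 : |b| * (p * κ / (|b| + 1) * d) ≤ p * κ * d := by
    have : |b| / (|b| + 1) ≤ 1 := by
      rw [div_le_one (by positivity)]; linarith
    have h13 : |b| * (p * κ / (|b| + 1) * d) = (|b| / (|b| + 1)) * (p * κ * d) := by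
      field_simp
    rw [h13]
    have : 0 < p * κ * d := by positivity
    nlinarith
  have h14 : 0 < p * κ * d := by positivity
  have h15 : 2 * p * κ * d ≤ b * φ d := h9
  linarith

theorem main : S_REAL := by
  intro p c R hp hc hcm hV hmono hsc hst
  have hp0 : 0 < p := by linarith
  rcases le_or_gt 2 p with h2 | h2
  · -- p ≥ 2
    have hmax : max p (p / (p - 1)) = p := by
      apply max_eq_left
      rw [div_le_iff₀ (by linarith)]
      nlinarith
    rw [hmax] at hcm
    have hk : ∀ s : ℝ, 0 < s → VV p c (s / p) (s * (p - 1) / p) =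
        s ^ p * (((p - 1) / p) ^ p - c ^ p * (1 / p) ^ p) := by
      intro s hs
      unfold VV
      rw [abs_of_nonneg (div_nonneg (mul_nonneg hs.le (by linarith)) hp0.le),
        abs_of_nonneg (div_nonneg hs.le hp0.le)]
      have e1 : s * (p - 1) / p = s * ((p - 1) / p) := by ring
      have e2 : s / p = s * (1 / p) := by ring
      rw [e1, e2, Real.mul_rpow hs.le (div_nonneg (by linarith) hp0.le),
        Real.mul_rpow hs.le (by positivity)]
      ring
    have hk1 : VV p c (-1 / p) (1 - 1 / p) = ((p - 1) / p) ^ p - c ^ p * (1 / p) ^ p := by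
      unfold VV
      have e1 : 1 - 1 / p = (p - 1) / p := by field_simp
      have e2 : |(-1 : ℝ) / p| = 1 / p := by
        rw [neg_div, abs_neg, abs_of_pos (by positivity)]
      rw [e1, e2, abs_of_nonneg (div_nonneg (by linarith) hp0.le)]
    have hκ : 0 < ((p - 1) / p) ^ p - c ^ p * (1 / p) ^ p := by
      rw [← Real.mul_rpow hc (by positivity)]
      have : c * (1 / p) < (p - 1) / p := by
        rw [mul_one_div]
        exact div_lt_div_of_pos_right hcm hp0
      have := Real.rpow_lt_rpow (by positivity) this hp0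
      linarith
    have hunb := unb p hp R (VV p c) _ hκ hV hk1 hk hsc
      (fun x1 y1 L x0 y0 lam η h1 h2 => hst x1 y1 L x0 y0 lam η h1 h2.le)
    rw [not_bddAbove_iff] at hunb
    obtain ⟨b, hb, hbc⟩ := hunb (c ^ p)
    have hb' : R 0 1 b := hb
    have h3 := hsc 0 1 b 2 (by norm_num) hb'
    rw [mul_zero, mul_one] at h3
    have h2p : (0 : ℝ) < 2 ^ p := Real.rpow_pos_of_pos (by norm_num) p
    have h4 := hst 0 2 (2 ^ p * b) 2 0 (1 / 2) (1 / 4 * (2 ^ p * (b - c ^ p))) h3
      (by norm_num) (by norm_num) (by norm_num) (by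
        have : 0 < b - c ^ p := by linarith
        positivity)
    refine ⟨_, _, _, ?_, ?_, h4⟩
    · norm_num
    · unfold VV
      rw [abs_zero, Real.zero_rpow hp0.ne', abs_of_pos (by norm_num : (0 : ℝ) < 2)]
      have : 0 < b - c ^ p := by linarith
      have h5 : 0 < 2 ^ p * (b - c ^ p) := by positivity
      nlinarith
  · -- p < 2
    have hmax : max p (p / (p - 1)) = p / (p - 1) := by
      apply max_eq_right
      rw [le_div_iff₀ (by linarith)]
      nlinarith
    rw [hmax] at hcm
    have hc1 : c * (p - 1) < 1 := by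
      have h3 : c < 1 / (p - 1) := by
        have e : p / (p - 1) - 1 = 1 / (p - 1) := by
          have : p - 1 ≠ 0 := by linarith
          field_simp
          ring
        rw [← e]; exact hcm
      rw [lt_div_iff₀ (by linarith)] at h3
      exact h3
    have hk : ∀ s : ℝ, 0 < s → VV p c (s * (p - 1) / p) (s / p) =
        s ^ p * ((1 / p) ^ p - c ^ p * ((p - 1) / p) ^ p) := by
      intro s hs
      unfold VV
      rw [abs_of_nonneg (div_nonneg (mul_nonneg hs.le (by linarith)) hp0.le),
        abs_of_nonneg (div_nonneg hs.le hp0.le)]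
      have e1 : s * (p - 1) / p = s * ((p - 1) / p) := by ring
      have e2 : s / p = s * (1 / p) := by ring
      rw [e1, e2, Real.mul_rpow hs.le (div_nonneg (by linarith) hp0.le),
        Real.mul_rpow hs.le (by positivity)]
      ring
    have hk1 : VV p c (1 - 1 / p) (-1 / p) = (1 / p) ^ p - c ^ p * ((p - 1) / p) ^ p := by
      unfold VV
      have e1 : 1 - 1 / p = (p - 1) / p := by field_simp
      have e2 : |(-1 : ℝ) / p| = 1 / p := by
        rw [neg_div, abs_neg, abs_of_pos (by positivity)]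
      rw [e1, e2, abs_of_nonneg (div_nonneg (by linarith) hp0.le)]
    have hκ : 0 < (1 / p) ^ p - c ^ p * ((p - 1) / p) ^ p := by
      rw [← Real.mul_rpow hc (div_nonneg (by linarith) hp0.le)]
      have : c * ((p - 1) / p) < 1 / p := by
        rw [← mul_div_assoc]
        exact div_lt_div_of_pos_right hc1 hp0
      have := Real.rpow_lt_rpow (mul_nonneg hc (div_nonneg (by linarith) hp0.le)) this hp0
      linarith
    have hunb := unb p hp (fun x y L => R y x L) (fun x y => VV p c y x) _ hκ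
      (fun x y => hV y x) hk1 hk (fun x y L s hs h => hsc y x L s hs h)
      (fun x1 y1 L x0 y0 lam η h1 h2 => hst y1 x1 L y0 x0 lam η h1 h2.ge)
    rw [not_bddAbove_iff] at hunb
    obtain ⟨b, hb, hb0⟩ := hunb 0
    exact ⟨1, 0, b, by norm_num, hb0, hb⟩

end Pool.Agent.W7.DS.Real
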